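import Pool.Agent.H8.DE.Targets

/-!
# Arithmetic with bounded variables
-/

set_option autoImplicit false

namespace Pool.Agent.H60.DE

open Pool.Agent.H69.Sp Pool.Agent.H69.VR Pool.Agent.H8.VR Pool.Agent.H8.JS Pool.Agent.H8.MC
open Pool.Agent.H8.DE

theorem it_suc (B k m : ℕ) (σ : Z1) (h : σ.v k + m ≤ B) :
    (run B (.suc k))^[m] σ = ⟨Function.update σ.v k (σ.v k + m), σ.tb⟩ := by
  induction m with
  | zero =>
    rw [Function.iterate_zero, id, Nat.add_zero, Function.update_eq_self]
  | succ m ih =>
    rw [Function.iterate_succ_apply', ih (by omega)]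
    show (⟨Function.update (Function.update σ.v k (σ.v k + m)) k
      (min ((Function.update σ.v k (σ.v k + m)) k + 1) B), σ.tb⟩ : Z1) = _
    rw [Function.update_self, Function.update_idem, min_eq_left (by omega)]
    rfl

theorem run_lps (B j k : ℕ) (σ : Z1) (h : σ.v k + σ.v j ≤ B) :
    run B (.lp j (.suc k)) σ = ⟨Function.update σ.v k (σ.v k + σ.v j), σ.tb⟩ :=
  it_suc B k (σ.v j) σ h

theorem it_lps (B j k : ℕ) (hjk : j ≠ k) (m : ℕ) (σ : Z1) (h : σ.v k + m * σ.v j ≤ B) :
    (run B (.lp j (.suc k)))^[m] σ = ⟨Function.update σ.v k (σ.v k + m * σ.v j), σ.tb⟩ := by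
  induction m with
  | zero =>
    rw [Function.iterate_zero, id, Nat.zero_mul, Nat.add_zero, Function.update_eq_self]
  | succ m ih =>
    have h1 : (m + 1) * σ.v j = m * σ.v j + σ.v j := by ring
    rw [Function.iterate_succ_apply', ih (by omega), run_lps]
    · simp only [Function.update_self, Function.update_idem, Function.update_of_ne hjk]
      rw [h1, Nat.add_assoc]
    · simp only [Function.update_self, Function.update_of_ne hjk]
      omega

theorem pf_AR : D_AR := by
  intro k i j hi hj
  have hik : i ≠ k := by omega
  have hjk : j ≠ k := by omega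
  refine ⟨⟨.seq (.cpy k i) (.lp j (.suc k)), fun B σ h => ?_⟩,
    ⟨.seq (.zer k) (.lp i (.lp j (.suc k))), fun B σ h => ?_⟩,
    ⟨.seq (.zer k) (.seq (.zer (k + 1)) (.lp j (.seq (.ife (k + 1) i (.seq (.zer k) (.suc k)) .nop)
      (.suc (k + 1))))), fun B σ hB hiB hjB => ?_⟩⟩
  · have h1 : run B (.seq (.cpy k i) (.lp j (.suc k))) σ =
        ⟨Function.update σ.v k (σ.v i + σ.v j), σ.tb⟩ := by
      show run B (.lp j (.suc k)) (⟨Function.update σ.v k (σ.v i), σ.tb⟩ : Z1) = _
      rw [run_lps]
      · simp only [Function.update_self, Function.update_idem, Function.update_of_ne hjk]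
      · simp only [Function.update_self, Function.update_of_ne hjk]
        exact h
    unfold Cal
    rw [h1]
    refine ⟨rfl, fun l hl => Function.update_of_ne (by omega) _ _, Function.update_self _ _ _⟩
  · have h1 : run B (.seq (.zer k) (.lp i (.lp j (.suc k)))) σ =
        ⟨Function.update σ.v k (σ.v i * σ.v j), σ.tb⟩ := by
      show (run B (.lp j (.suc k)))^[(Function.update σ.v k 0) i]
        (⟨Function.update σ.v k 0, σ.tb⟩ : Z1) = _
      rw [Function.update_of_ne hik, it_lps B j k hjk]
      · simp only [Function.update_self, Function.update_idem, Function.update_of_ne hjk,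
          Nat.zero_add]
      · simp only [Function.update_self, Function.update_of_ne hjk, Nat.zero_add]
        exact h
    unfold Cal
    rw [h1]
    refine ⟨rfl, fun l hl => Function.update_of_ne (by omega) _ _, Function.update_self _ _ _⟩
  · obtain ⟨q, hq⟩ : ∃ q : P1, q = .seq (.ife (k + 1) i (.seq (.zer k) (.suc k)) .nop)
      (.suc (k + 1)) := ⟨_, rfl⟩
    have hk1 : k ≠ k + 1 := by omega
    have hik1 : i ≠ k + 1 := by omega
    have hjk1 : j ≠ k + 1 := by omega
    have hit : ∀ m ≤ σ.v j, (run B q)^[m]
        (⟨Function.update (Function.update σ.v k 0) (k + 1) 0, σ.tb⟩ : Z1) =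
        ⟨Function.update (Function.update σ.v k (if σ.v i < m then 1 else 0)) (k + 1) m, σ.tb⟩ := by
      intro m
      induction m with
      | zero =>
        intro _
        rw [Function.iterate_zero, id, if_neg (Nat.not_lt_zero _)]
      | succ m ih =>
        intro hm
        rw [Function.iterate_succ_apply', ih (by omega), hq]
        obtain ⟨w, hw⟩ : ∃ w, w = Function.update (Function.update σ.v k
          (if σ.v i < m then 1 else 0)) (k + 1) m := ⟨_, rfl⟩
        rw [← hw]
        have w1 : w (k + 1) = m := by rw [hw, Function.update_self]
        have w2 : w i = σ.v i := by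
          rw [hw, Function.update_of_ne hik1, Function.update_of_ne hik]
        show run B (.suc (k + 1)) (if w (k + 1) = w i then
          run B (.seq (.zer k) (.suc k)) (⟨w, σ.tb⟩ : Z1) else (⟨w, σ.tb⟩ : Z1)) = _
        rw [w1, w2]
        by_cases hmi : m = σ.v i
        · rw [if_pos hmi]
          show (⟨_, _⟩ : Z1) = _
          have e1 : (Function.update (Function.update w k 0) k
              (min ((Function.update w k 0) k + 1) B)) = Function.update w k 1 := by
            rw [Function.update_self, Function.update_idem, min_eq_left (by omega)]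
          show (⟨Function.update (Function.update (Function.update w k 0) k
              (min ((Function.update w k 0) k + 1) B)) (k + 1)
              (min ((Function.update (Function.update w k 0) k
              (min ((Function.update w k 0) k + 1) B)) (k + 1) + 1) B), σ.tb⟩ : Z1) = _
          rw [e1, Function.update_of_ne hk1.symm, w1, min_eq_left (by omega),
            if_pos (by omega : σ.v i < m + 1)]
          congr 1
          funext l
          by_cases hl1 : l = k + 1
          · subst hl1
            rw [Function.update_self, Function.update_self]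
          rw [Function.update_of_ne hl1, Function.update_of_ne hl1]
          by_cases hl : l = k
          · subst hl
            rw [Function.update_self, Function.update_self]
          rw [Function.update_of_ne hl, Function.update_of_ne hl, hw, Function.update_of_ne hl1,
            Function.update_of_ne hl]
        · rw [if_neg hmi]
          show (⟨Function.update w (k + 1) (min (w (k + 1) + 1) B), σ.tb⟩ : Z1) = _
          rw [w1, min_eq_left (by omega), hw, Function.update_idem]
          have e2 : (if σ.v i < m then 1 else 0) = (if σ.v i < m + 1 then 1 else 0) := by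
            by_cases h1 : σ.v i < m
            · rw [if_pos h1, if_pos (by omega)]
            · rw [if_neg h1, if_neg (by omega)]
          rw [e2]
    have h1 : run B (.seq (.zer k) (.seq (.zer (k + 1)) (.lp j q))) σ =
        ⟨Function.update (Function.update σ.v k (if σ.v i < σ.v j then 1 else 0)) (k + 1)
          (σ.v j), σ.tb⟩ := by
      show (run B q)^[(Function.update (Function.update σ.v k 0) (k + 1) 0) j]
        (⟨Function.update (Function.update σ.v k 0) (k + 1) 0, σ.tb⟩ : Z1) = _
      rw [Function.update_of_ne hjk1, Function.update_of_ne hjk]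
      exact hit _ le_rfl
    rw [← hq]
    unfold Cal
    rw [h1]
    refine ⟨rfl, fun l hl => ?_, ?_⟩
    · show Function.update (Function.update σ.v k _) (k + 1) _ l = σ.v l
      rw [Function.update_of_ne (by omega), Function.update_of_ne (by omega)]
    · show Function.update (Function.update σ.v k _) (k + 1) _ k = _
      rw [Function.update_of_ne hk1, Function.update_self]

end Pool.Agent.H60.DE
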